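import Pool.Agent.helper34.MO.SpecA

/-! Row mo:EV of MP_0631c5_co -/

set_option autoImplicit false

open Complex Finset

namespace Pool.Agent.MO

theorem EV_two (hPHE : PHE_stmt) (hPHS : PHS_stmt) (F : ℕ → ℕ → ℂ) (i j : ℕ) (hij : i ≠ j)
    (hs : F i j = F j i) (hA : AccS F {i, j}) : phS F {i, j} = ph2 (F i i) (F j j) (F i j) := by
  have h1 := hPHS F {j} i (by simpa using hij) hA
  rw [h1.2.2.1, (hPHE.2.1 (sch F i) j).1]
  unfold ph2 sch
  rw [← hs, pow_two]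

theorem EV (hPHE : PHE_stmt) (hPHS : PHS_stmt) : EV_stmt := by
  refine ⟨EV_two hPHE hPHS, ?_⟩
  intro F i j k hij hik hjk s1 s2 s3 hA
  have h1 := hPHS F {j, k} i (by simp [hij, hik]) hA
  have h2 := EV_two hPHE hPHS (sch F i) j k hjk (by
    unfold sch
    rw [s3, ← s1, ← s2, mul_comm]) h1.2.1
  rw [h1.2.2.1, h2]
  unfold ph3 sch
  rw [← s1, ← s2, pow_two, pow_two]

end Pool.Agent.MO
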