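import Pool.Agent.helper34.MO.SpecA

/-! Row mo:PHC of MP_0631c5_co -/

set_option autoImplicit false

open Complex Finset

namespace Pool.Agent.MO

theorem PHC_det (F : ℝ → ℕ → ℕ → ℂ) (S : Finset ℕ)
    (h : ∀ i ∈ S, ∀ j ∈ S, ContinuousOn (fun s => F s i j) (Set.Icc 0 1)) :
    ContinuousOn (fun s => detS (F s) S) (Set.Icc 0 1) := by
  unfold detS
  simp only [Matrix.det_apply]
  refine continuousOn_finset_sum _ fun σ _ => ?_
  refine ContinuousOn.const_smul ?_ _
  refine continuousOn_finset_prod _ fun i _ => ?_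
  exact h (σ i).1 (σ i).2 i.1 i.2

theorem PHC (hPHE : PHE_stmt) (hPHP : PHP_stmt) : PHC_stmt := by
  intro F S
  classical
  induction S using Finset.induction_on with
  | empty =>
    intro _ _
    have h1 : (fun s : ℝ => phS (F s) ∅) = fun _ => 0 := by
      funext s
      exact (hPHE.1 (F s)).1
    rw [h1]
    exact continuousOn_const
  | insert k S hk ih =>
    intro hc hA
    have hcS : ∀ i ∈ S, ∀ j ∈ S, ContinuousOn (fun s => F s i j) (Set.Icc 0 1) := fun i hi j hj =>
      hc i (Finset.mem_insert_of_mem hi) j (Finset.mem_insert_of_mem hj)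
    have hAS : ∀ s ∈ Set.Icc (0 : ℝ) 1, AccS (F s) S := fun s hs =>
      hPHE.2.2.2.2 (F s) S (insert k S) (Finset.subset_insert k S) (hA s hs)
    have h1 := ih hcS hAS
    have h2 : ContinuousOn (fun s => detS (F s) (insert k S) / detS (F s) S) (Set.Icc 0 1) :=
      (PHC_det F (insert k S) hc).div (PHC_det F S hcS) (fun s hs => (hPHP (F s) S k hk (hA s hs)).1)
    have h3 : ContinuousOn (fun s => arg (detS (F s) (insert k S) / detS (F s) S)) (Set.Icc 0 1) := by
      intro s hs
      have h4 : detS (F s) (insert k S) / detS (F s) S ∈ Complex.slitPlane :=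
        Or.inl (hPHP (F s) S k hk (hA s hs)).2.1
      exact ContinuousAt.comp_continuousWithinAt (g := Complex.arg)
        (f := fun s => detS (F s) (insert k S) / detS (F s) S) (Complex.continuousAt_arg h4) (h2 s hs)
    refine (h1.add h3).congr ?_
    intro s hs
    exact (hPHP (F s) S k hk (hA s hs)).2.2

end Pool.Agent.MO
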