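import Pool.Agent.helper34.MO.SpecA

/-! Row mo:PHD of MP_0631c5_co -/

set_option autoImplicit false

open Complex Finset

namespace Pool.Agent.MO

theorem PHD_multi (s : Multiset ℂ) :
    s.prod = (‖s.prod‖ : ℂ) * exp (((s.map Complex.arg).sum : ℝ) * I) := by
  induction s using Multiset.induction_on with
  | empty => simp
  | cons a s ih =>
    rw [Multiset.prod_cons, Multiset.map_cons, Multiset.sum_cons, norm_mul]
    push_cast
    rw [add_mul, Complex.exp_add]
    have h1 := Complex.norm_mul_exp_arg_mul_I a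
    calc a * s.prod = (‖a‖ * exp (arg a * I)) * ((‖s.prod‖ : ℂ) * exp (((s.map Complex.arg).sum : ℝ) * I)) := by
          rw [h1, ← ih]
      _ = _ := by push_cast; ring

theorem PHD_root (F : ℕ → ℕ → ℂ) (S : Finset ℕ) (h : AccS F S) (r : ℂ) (hr : r ∈ (mS F S).charpoly.roots) :
    0 < r.re := by
  classical
  have h1 : (mS F S).charpoly.IsRoot r := (Polynomial.mem_roots'.mp hr).2
  rw [Polynomial.IsRoot.def, Matrix.eval_charpoly] at h1
  obtain ⟨v, hv0, hv⟩ := Matrix.exists_mulVec_eq_zero_iff.mpr h1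
  have hv' : ∀ i : S, ∑ j : S, F i.1 j.1 * v j = r * v i := by
    intro i
    have h2 := congrFun hv i
    rw [Matrix.sub_mulVec, Pi.sub_apply, Pi.zero_apply, sub_eq_zero] at h2
    have h3 : ((Matrix.scalar S) r).mulVec v i = r * v i := by
      rw [Matrix.scalar_apply, Matrix.mulVec_diagonal]
    rw [h3] at h2
    rw [h2]
    rfl
  set x : ℕ → ℂ := fun i => if hi : i ∈ S then v ⟨i, hi⟩ else 0 with hx
  have hxv : ∀ i : S, x i.1 = v i := by
    intro i
    rw [hx]
    simp only [i.2, dif_pos]
  have hne : ∃ i ∈ S, x i ≠ 0 := by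
    by_contra hcon
    push Not at hcon
    apply hv0
    funext i
    rw [← hxv i]
    exact hcon i.1 i.2
  have h2 := h x hne
  have h3 : (∑ i ∈ S, ∑ j ∈ S, (starRingEnd ℂ) (x i) * F i j * x j) =
      r * ((∑ i : S, Complex.normSq (v i) : ℝ) : ℂ) := by
    rw [← Finset.sum_coe_sort S (fun i => ∑ j ∈ S, (starRingEnd ℂ) (x i) * F i j * x j)]
    rw [Complex.ofReal_sum, Finset.mul_sum]
    refine Finset.sum_congr rfl ?_
    intro i _
    rw [← Finset.sum_coe_sort S (fun j => (starRingEnd ℂ) (x i.1) * F i.1 j * x j)]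
    simp only [hxv]
    calc ∑ j : S, (starRingEnd ℂ) (v i) * F i.1 j.1 * v j = (starRingEnd ℂ) (v i) * ∑ j : S, F i.1 j.1 * v j := by
          rw [Finset.mul_sum]
          exact Finset.sum_congr rfl (fun j _ => by ring)
      _ = (starRingEnd ℂ) (v i) * (r * v i) := by rw [hv']
      _ = r * ((v i) * (starRingEnd ℂ) (v i)) := by ring
      _ = r * (Complex.normSq (v i) : ℂ) := by rw [Complex.mul_conj]
  rw [h3, Complex.re_mul_ofReal] at h2
  have h4 : 0 ≤ ∑ i : S, Complex.normSq (v i) := Finset.sum_nonneg (fun i _ => Complex.normSq_nonneg _)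
  by_contra hcon
  push Not at hcon
  have := mul_nonpos_of_nonpos_of_nonneg hcon h4
  linarith

theorem PHD : PHD_stmt := by
  intro F S h
  have hroots := PHD_root F S h
  have hdet : detS F S = (mS F S).charpoly.roots.prod := by
    unfold detS
    exact Matrix.det_eq_prod_roots_charpoly (mS F S)
  refine ⟨?_, ?_, hroots⟩
  · rw [hdet]
    intro h0
    rw [Multiset.prod_eq_zero_iff] at h0
    have := hroots 0 h0
    simp at this
  · rw [hdet]
    exact PHD_multi _

end Pool.Agent.MO
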