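import Pool.Agent.helper34.MO.SpecA

/-! Row mo:PHE of MP_0631c5_co -/

set_option autoImplicit false

open Complex Finset

namespace Pool.Agent.MO

theorem PHE_one (F : ℕ → ℕ → ℂ) : phS F ∅ = 0 ∧ detS F ∅ = 1 := by
  have : IsEmpty ((∅ : Finset ℕ) : Type) := ⟨fun x => absurd x.2 (Finset.notMem_empty _)⟩
  constructor
  · unfold phS
    rw [Matrix.charpoly, Matrix.det_isEmpty, Polynomial.roots_one]
    simp
  · unfold detS
    exact Matrix.det_isEmpty

theorem PHE_two (F : ℕ → ℕ → ℂ) (k : ℕ) : phS F {k} = arg (F k k) ∧ detS F {k} = F k k := by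
  have hs : Subsingleton (({k} : Finset ℕ) : Type) :=
    ⟨fun a b => Subtype.ext ((Finset.mem_singleton.mp a.2).trans (Finset.mem_singleton.mp b.2).symm)⟩
  have hk : k ∈ ({k} : Finset ℕ) := Finset.mem_singleton_self k
  constructor
  · unfold phS
    rw [Matrix.charpoly, Matrix.det_eq_elem_of_subsingleton _ (⟨k, hk⟩ : ({k} : Finset ℕ)),
      Matrix.charmatrix_apply_eq, Polynomial.roots_X_sub_C]
    simp [mS]
  · unfold detS
    rw [Matrix.det_eq_elem_of_subsingleton _ (⟨k, hk⟩ : ({k} : Finset ℕ))]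
    rfl

theorem PHE_three (F G : ℕ → ℕ → ℂ) (S : Finset ℕ) (h : ∀ i ∈ S, ∀ j ∈ S, F i j = G i j) :
    phS F S = phS G S ∧ detS F S = detS G S ∧ (AccS F S → AccS G S) := by
  have h1 : mS F S = mS G S := by
    ext i j
    exact h i.1 i.2 j.1 j.2
  refine ⟨?_, ?_, ?_⟩
  · unfold phS
    rw [h1]
  · unfold detS
    rw [h1]
  · intro hF x hx
    have h2 := hF x hx
    have h3 : (∑ i ∈ S, ∑ j ∈ S, (starRingEnd ℂ) (x i) * F i j * x j) =
        ∑ i ∈ S, ∑ j ∈ S, (starRingEnd ℂ) (x i) * G i j * x j := by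
      refine Finset.sum_congr rfl fun i hi => Finset.sum_congr rfl fun j hj => ?_
      rw [h i hi j hj]
    rw [h3] at h2
    exact h2

theorem PHE_four (F : ℕ → ℕ → ℂ) (S : Finset ℕ) (g : ℕ → ℕ) (hg : Set.InjOn g S) :
    phS (fun x y => F (g x) (g y)) S = phS F (S.image g) ∧
    detS (fun x y => F (g x) (g y)) S = detS F (S.image g) ∧
    (AccS F (S.image g) → AccS (fun x y => F (g x) (g y)) S) := by
  classical
  let e0 : S → (S.image g : Finset ℕ) := fun i => ⟨g i.1, Finset.mem_image_of_mem g i.2⟩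
  have hb : Function.Bijective e0 := by
    constructor
    · intro a b hab
      exact Subtype.ext (hg a.2 b.2 (congrArg Subtype.val hab))
    · intro m
      obtain ⟨i, hi, him⟩ := Finset.mem_image.mp m.2
      exact ⟨⟨i, hi⟩, Subtype.ext him⟩
  let e : S ≃ (S.image g : Finset ℕ) := Equiv.ofBijective e0 hb
  have h1 : mS (fun x y => F (g x) (g y)) S = (mS F (S.image g)).submatrix e e := by
    ext i j
    rfl
  refine ⟨?_, ?_, ?_⟩
  · unfold phS
    have h2 : (mS (fun x y => F (g x) (g y)) S).charpoly = (mS F (S.image g)).charpoly := by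
      rw [h1]
      exact Matrix.charpoly_reindex e.symm (mS F (S.image g))
    rw [h2]
  · unfold detS
    rw [h1]
    exact Matrix.det_submatrix_equiv_self e _
  · intro hF x hx
    obtain ⟨i₀, hi₀, hne⟩ := hx
    set x' : ℕ → ℂ := fun m => x (Function.invFunOn g (S : Set ℕ) m) with hx'
    have hxg : ∀ i ∈ S, x' (g i) = x i := by
      intro i hi
      have := hg.leftInvOn_invFunOn (show i ∈ (S : Set ℕ) from hi)
      rw [hx']
      simp only
      rw [this]
    have h2 := hF x' ⟨g i₀, Finset.mem_image_of_mem g hi₀, by rw [hxg i₀ hi₀]; exact hne⟩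
    have h3 : (∑ i ∈ S.image g, ∑ j ∈ S.image g, (starRingEnd ℂ) (x' i) * F i j * x' j) =
        ∑ i ∈ S, ∑ j ∈ S, (starRingEnd ℂ) (x i) * F (g i) (g j) * x j := by
      rw [Finset.sum_image hg]
      refine Finset.sum_congr rfl fun i hi => ?_
      rw [Finset.sum_image hg]
      refine Finset.sum_congr rfl fun j hj => ?_
      rw [hxg i hi, hxg j hj]
    rw [h3] at h2
    exact h2

theorem PHE_five (F : ℕ → ℕ → ℂ) (S T : Finset ℕ) (hST : S ⊆ T) (hT : AccS F T) : AccS F S := by
  classical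
  intro x hx
  obtain ⟨i₀, hi₀, hne⟩ := hx
  set x' : ℕ → ℂ := fun m => if m ∈ S then x m else 0 with hx'
  have h1 : ∀ i ∈ S, x' i = x i := by
    intro i hi
    rw [hx']
    simp only [hi, if_true]
  have h0 : ∀ i, i ∉ S → x' i = 0 := by
    intro i hi
    rw [hx']
    simp only [hi, if_false]
  have h2 := hT x' ⟨i₀, hST hi₀, by rw [h1 i₀ hi₀]; exact hne⟩
  have h3 : (∑ i ∈ T, ∑ j ∈ T, (starRingEnd ℂ) (x' i) * F i j * x' j) =
      ∑ i ∈ S, ∑ j ∈ S, (starRingEnd ℂ) (x i) * F i j * x j := by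
    rw [← Finset.sum_subset hST]
    · refine Finset.sum_congr rfl fun i hi => ?_
      rw [← Finset.sum_subset hST]
      · refine Finset.sum_congr rfl fun j hj => ?_
        rw [h1 i hi, h1 j hj]
      · intro j _ hj
        rw [h0 j hj, mul_zero]
    · intro i _ hi
      rw [h0 i hi]
      simp
  rw [h3] at h2
  exact h2

theorem PHE : PHE_stmt :=
  ⟨PHE_one, PHE_two, PHE_three, PHE_four, PHE_five⟩

end Pool.Agent.MO
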